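import Pool.Agent.H31.AG

open Pool.Agent.H31.AG

theorem Pool.Agent.Results.MP_611bc7_al.Main.result :
    ∃ (k : Type) (_ : Field k) (_ : CharZero k) (H H' : Alg k), AutEq H H' ∧ ¬ GeomEq H H' :=
  ⟨K, inferInstance, inferInstance, RR φ, RR (φ.comp (starRingEnd K)), autEq fun _ => rfl, notGeom⟩
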